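import Pool.Agent.WAQ.Alg
import Pool.Agent.WAQ.Exports
import Pool.Agent.Helper90_WAQ.JD

/-!
# WAQ, part G: the exports FRA FRE INV CMP BCH BCK
-/

namespace Pool.Agent.WAQ.H40

open Classical
open Pool.Agent.WAQ.G
open WeierstrassCurve WeierstrassCurve.Affine

variable [Par]

theorem fra : FraStmt := by
  intro F _ _ h2 d P Q a b c e _ h
  exact actf_kum h2 h a b c e

theorem fre : FreStmt := by
  intro F _ _ h2 z h
  exact ⟨onU_cub1 h, kum_fr h2 h, (isP_frP h2 h).ne_zero, (isP_frQ h2 h).ne_zero⟩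

section inv

variable {F : Type} [Field F] [Gd F]

theorem t0f_t0f (h2 : (2 : F) ≠ 0) {z : F × F × F} (h : OnU z) : t0f (t0f z) = z := by
  have hd := onU_cub1 h
  have e := kum_fr h2 h
  have h' := h
  rw [← e] at h'
  obtain ⟨e1, h1⟩ := t0f_kum h2 h'
  rw [e1] at h1
  have e2 := (t0f_kum h2 h1).1
  rw [← e1, e, add_assoc, tor_add_self h2 hd cub_zero, add_zero, e] at e2
  exact e2

theorem tpf_tpf (h2 : (2 : F) ≠ 0) {z : F × F × F} (h : OnU z) : tpf (tpf z) = z := by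
  have hd := onU_cub1 h
  have e := kum_fr h2 h
  have h' := h
  rw [← e] at h'
  obtain ⟨e1, h1⟩ := tpf_kum h2 h'
  rw [e1] at h1
  have e2 := (tpf_kum h2 h1).1
  rw [← e1, e, add_assoc, tor_add_self h2 hd cub_ea, add_zero, e] at e2
  exact e2

theorem tmf_tmf (h2 : (2 : F) ≠ 0) {z : F × F × F} (h : OnU z) : tmf (tmf z) = z := by
  have hd := onU_cub1 h
  have e := kum_fr h2 h
  have h' := h
  rw [← e] at h'
  obtain ⟨e1, h1⟩ := tmf_kum h2 h'
  rw [e1] at h1
  have e2 := (tmf_kum h2 h1).1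
  rw [← e1, e, add_assoc, tor_add_self h2 hd cub_eb, add_zero, e] at e2
  exact e2

end inv

theorem inv : InvStmt := by
  intro F _ _ h2 l z z' hs
  obtain ⟨hz, hz', hl⟩ := hs
  refine ⟨hz', hz, ?_⟩
  cases l with
  | act a b c e =>
    obtain ⟨hdet, he⟩ := hl
    refine ⟨by linear_combination hdet, ?_⟩
    rw [he] at hz' ⊢
    rw [actf_actf h2 a b c e _ _ _ _ hz']
    have e1 : e * a + -b * c = 1 := by linear_combination hdet
    have e2 : e * b + -b * e = 0 := by ring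
    have e3 : -c * a + a * c = 0 := by ring
    have e4 : -c * b + a * e = 1 := by linear_combination hdet
    rw [e1, e2, e3, e4, actf_one h2 hz]
  | sw => 
    have hl' : z' = swf z := hl
    show z = swf z'
    rw [hl']; rfl
  | t0 =>
    have hl' : z' = t0f z := hl
    show z = t0f z'
    rw [hl', t0f_t0f h2 hz]
  | tp =>
    have hl' : z' = tpf z := hl
    show z = tpf z'
    rw [hl', tpf_tpf h2 hz]
  | tm =>
    have hl' : z' = tmf z := hl
    show z = tmf z'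
    rw [hl', tmf_tmf h2 hz]
  | jj =>
    obtain ⟨hD, he⟩ := hl
    have h1 := H90.JD_JJf hz hD
    show JD z' ∧ z = JJf z'
    rw [he]
    exact ⟨h1.1, h1.2.1.symm⟩

theorem cmp : CmpStmt := by
  intro F _ _ h2 a b c e a' b' c' e' z z1 z2 h1 h2'
  obtain ⟨hz, hz1, hdet, he⟩ := h1
  obtain ⟨-, hz2, hdet', he'⟩ := h2'
  refine ⟨hz, hz2, ?_, ?_⟩
  · linear_combination (a' * e' - b' * c') * hdet + hdet'
  · rw [he', he]
    rw [he] at hz1
    exact actf_actf h2 a b c e _ _ _ _ hz1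

/-! ### Base change -/

section bch

variable {K F : Type} [Field K] [Field F]

theorem W_map (σ : K →+* F) (d : K) : (W d).map σ = W (σ d) := by
  unfold W
  simp [WeierstrassCurve.map]

theorem nonsing_bc (σ : K →+* F) {d X Y : K} :
    (W (σ d)).Nonsingular (σ X) (σ Y) ↔ (W d).Nonsingular X Y := by
  rw [W_nonsing_iff, W_nonsing_iff]
  have e1 : (σ Y ^ 2 = σ X * (σ X - σ d * ea F) * (σ X - σ d * eb F)) ↔
      (Y ^ 2 = X * (X - d * ea K) * (X - d * eb K)) := by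
    rw [← map_ea σ, ← map_eb σ, ← map_pow, ← map_mul, ← map_mul, ← map_sub, ← map_sub, ← map_mul,
      ← map_mul, σ.injective.eq_iff]
  have e2 : (3 * σ X ^ 2 - 2 * σ d * (ea F + eb F) * σ X + σ d ^ 2 * (ea F * eb F) = 0) ↔
      (3 * X ^ 2 - 2 * d * (ea K + eb K) * X + d ^ 2 * (ea K * eb K) = 0) := by
    have h : 3 * σ X ^ 2 - 2 * σ d * (ea F + eb F) * σ X + σ d ^ 2 * (ea F * eb F)
        = σ (3 * X ^ 2 - 2 * d * (ea K + eb K) * X + d ^ 2 * (ea K * eb K)) := by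
      simp only [map_add, map_sub, map_mul, map_pow, map_ofNat, map_ea, map_eb]
    rw [h, map_eq_zero]
  have e3 : (2 * σ Y = 0) ↔ (2 * Y = 0) := by
    rw [← map_ofNat σ 2, ← map_mul, map_eq_zero]
  rw [e1, ne_eq, ne_eq, ne_eq, ne_eq, e2, e3]

/-- the map on points given by a field homomorphism -/
noncomputable def pmf (σ : K →+* F) {d : K} : Pt d → Pt (σ d)
  | .zero => .zero
  | .some X Y h => .some (σ X) (σ Y) ((nonsing_bc σ).2 h)

theorem slope_bc (σ : K →+* F) {d x1 x2 y1 y2 : K} :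
    (W (σ d)).slope (σ x1) (σ x2) (σ y1) (σ y2) = σ ((W d).slope x1 x2 y1 y2) := by
  rw [← W_map]
  exact map_slope σ x1 x2 y1 y2

theorem pmf_add (σ : K →+* F) {d : K} (P Q : Pt d) : pmf σ (P + Q) = pmf σ P + pmf σ Q := by
  rcases P with _ | ⟨x1, y1, h1⟩
  · show pmf σ (0 + Q) = 0 + pmf σ Q
    rw [zero_add, zero_add]
  rcases Q with _ | ⟨x2, y2, h2⟩
  · show pmf σ (_ + 0) = pmf σ _ + 0
    rw [add_zero, add_zero]
  by_cases hxy : x1 = x2 ∧ y1 = (W d).negY x2 y2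
  · rw [Affine.Point.add_of_Y_eq hxy.1 hxy.2]
    simp only [pmf]
    rw [Affine.Point.add_of_Y_eq (by rw [hxy.1]) (by rw [hxy.2, W_negY, W_negY, map_neg])]
    rfl
  · rw [Affine.Point.add_some hxy]
    have hxy' : ¬ (σ x1 = σ x2 ∧ σ y1 = (W (σ d)).negY (σ x2) (σ y2)) := by
      rintro ⟨h3, h4⟩
      apply hxy
      refine ⟨σ.injective h3, ?_⟩
      rw [W_negY] at h4 ⊢
      apply σ.injective
      rw [h4, map_neg]
    simp only [pmf]
    rw [Affine.Point.add_some hxy']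
    congr 1
    · rw [slope_bc, W_addX, W_addX]
      simp only [map_sub, map_pow, map_add, map_mul, map_ea, map_eb]
    · rw [slope_bc, W_addY, W_addY]
      simp only [map_sub, map_pow, map_neg, map_add, map_mul, map_ea, map_eb]

/-- the homomorphism on points given by a field homomorphism -/
noncomputable def pm (σ : K →+* F) (d : K) : Pt d →+ Pt (σ d) where
  toFun := pmf σ
  map_zero' := rfl
  map_add' := pmf_add σ

theorem cX_pm (σ : K →+* F) {d : K} (P : Pt d) : cX (pm σ d P) = σ (cX P) := by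
  rcases P with _ | ⟨X, Y, h⟩
  · show (0 : F) = σ 0
    rw [map_zero]
  · rfl

theorem cY_pm (σ : K →+* F) {d : K} (P : Pt d) : cY (pm σ d P) = σ (cY P) := by
  rcases P with _ | ⟨X, Y, h⟩
  · show (0 : F) = σ 0
    rw [map_zero]
  · rfl

theorem pm_mk (σ : K →+* F) (d X Y : K) : pm σ d (mkPt d X Y) = mkPt (σ d) (σ X) (σ Y) := by
  unfold mkPt
  by_cases h : (W d).Nonsingular X Y
  · rw [dif_pos h, dif_pos ((nonsing_bc σ).2 h)]
    rfl
  · rw [dif_neg h, dif_neg (fun h' => h ((nonsing_bc σ).1 h'))]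
    rfl

theorem kum_pm (σ : K →+* F) {d : K} (P Q : Pt d) :
    kum (σ d) (pm σ d P) (pm σ d Q) = bc σ (kum d P Q) := by
  unfold kum bc
  rw [cX_pm, cX_pm, cY_pm, cY_pm]
  simp only [map_div₀, map_mul, map_pow]

theorem sm_pm (σ : K →+* F) {d : K} (a : ℤ) (P : Pt d) :
    sm a (pm σ d P) = pm σ d (sm a P) := by
  rw [sm_def, sm_def, ← map_zsmul]

theorem exists_bc (σ : K →+* F)
    (d : K) (d' : F) (hd : σ d = d') :
    ∃ φ : Pt d →+ Pt d', (∀ a P, sm a (φ P) = φ (sm a P)) ∧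
      (∀ X Y, φ (mkPt d X Y) = mkPt d' (σ X) (σ Y)) ∧
      (∀ P Q, kum d' (φ P) (φ Q) = bc σ (kum d P Q)) := by
  subst hd
  exact ⟨pm σ d, sm_pm σ, pm_mk σ d, kum_pm σ⟩

theorem cub_bc (σ : K →+* F) (x : K) : cub (σ x) = σ (cub x) := by
  unfold cub
  rw [map_mul, map_mul, map_sub, map_sub, map_ea, map_eb]

theorem onU_bc (σ : K →+* F) (z : K × K × K) : OnU (bc σ z) ↔ OnU z := by
  unfold OnU bc
  simp only
  rw [cub_bc, cub_bc, ← map_mul, ← map_pow, σ.injective.eq_iff, ne_eq, map_eq_zero]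

theorem actf_bc (σ : K →+* F)
    (a b c e : ℤ) (z : K × K × K) :
    actf a b c e (bc σ z) = bc σ (actf a b c e z) := by
  have hd : σ (cub z.1) = cub (bc σ z).1 := (cub_bc σ z.1).symm
  obtain ⟨φ, h1, h2, h3⟩ := exists_bc σ (cub z.1) (cub (bc σ z).1) hd
  have eP : φ (frP z) = frP (bc σ z) := by
    unfold frP
    rw [h2, map_mul, map_pow, hd]
    rfl
  have eQ : φ (frQ z) = frQ (bc σ z) := by
    unfold frQ
    rw [h2, map_mul, map_mul, hd]
    rfl
  unfold actf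
  rw [← eP, ← eQ, h1, h1, h1, h1, ← map_add, ← map_add, h3]

omit [Par] [Field K] [Field F] in
theorem swf_bc (σ : K → F) (z : K × K × K) : swf (bc σ z) = bc σ (swf z) := rfl

theorem t0f_bc (σ : K →+* F) (z : K × K × K) : t0f (bc σ z) = bc σ (t0f z) := by
  unfold t0f bc
  simp only [map_div₀, map_neg, map_one, map_pow, map_mul, map_ea, map_eb]

theorem tpf_bc (σ : K →+* F) (z : K × K × K) : tpf (bc σ z) = bc σ (tpf z) := by
  unfold tpf bc
  simp only [map_div₀, map_neg, map_one, map_pow, map_add, map_sub, map_mul, map_ofNat, map_ea,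
    map_eb]

theorem tmf_bc (σ : K →+* F) (z : K × K × K) : tmf (bc σ z) = bc σ (tmf z) := by
  unfold tmf bc
  simp only [map_div₀, map_neg, map_one, map_pow, map_add, map_sub, map_mul, map_ofNat, map_ea,
    map_eb]

theorem t00f_bc (σ : K →+* F) (z : K × K × K) : t00f (bc σ z) = bc σ (t00f z) := by
  unfold t00f bc
  simp only [map_div₀, map_neg, map_one, map_pow, map_mul, map_ea, map_eb]

theorem jw_bc (σ : K →+* F) (z : K × K × K) : jw (bc σ z) = σ (jw z) := by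
  unfold jw bc
  simp only [map_div₀, map_one, map_pow, map_mul, map_sub, map_add, map_ea, map_eb]

theorem jd_bc (σ : K →+* F) (z : K × K × K) : jd (bc σ z) = σ (jd z) := by
  unfold jd
  rw [jw_bc]
  simp only [map_div₀, map_one, map_sub, map_neg, map_mul, map_eb]

theorem ja_bc (σ : K →+* F) (z : K × K × K) : ja (bc σ z) = σ (ja z) := by
  unfold ja
  rw [jd_bc]
  unfold bc
  simp only [map_div₀, map_sub, map_mul, map_pow]

theorem jx_bc (σ : K →+* F) (z : K × K × K) : jx (bc σ z) = σ (jx z) := by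
  unfold jx
  rw [jd_bc, ja_bc, jw_bc]
  unfold bc
  simp only [map_div₀, map_sub, map_mul, map_pow, map_add, map_one, map_ea, map_eb]

theorem jt_bc (σ : K →+* F) (z : K × K × K) : jt (bc σ z) = σ (jt z) := by
  unfold jt
  rw [jd_bc, ja_bc, jx_bc]
  simp only [map_div₀, map_sub, map_mul, map_add]

theorem jf_bc (σ : K →+* F) (z : K × K × K) : jf (bc σ z) = bc σ (jf z) := by
  unfold jf
  rw [jx_bc, jt_bc, jw_bc]
  unfold bc
  simp only [map_sub, map_mul, map_pow, map_add, map_one, map_ea, map_eb]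

theorem jD_bc (σ : K →+* F) (z : K × K × K) : jD (bc σ z) ↔ jD z := by
  unfold jD
  rw [onU_bc, jw_bc, jd_bc, ja_bc, jx_bc]
  have e0 : (bc σ z).1 = σ z.1 := rfl
  rw [e0]
  have e1 : (σ (jw z) ≠ 1) ↔ (jw z ≠ 1) := by
    rw [← map_one σ]
    exact σ.injective.ne_iff
  have e2 : (σ z.1 ≠ σ (jd z)) ↔ (z.1 ≠ jd z) := σ.injective.ne_iff
  have e3 : (σ (ja z) ≠ eb F) ↔ (ja z ≠ eb K) := by
    rw [← map_eb σ]
    exact σ.injective.ne_iff
  have e4 : (σ (jd z) ≠ σ (ja z)) ↔ (jd z ≠ ja z) := σ.injective.ne_iff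
  have e5 : (σ (jd z) * (σ (jd z) - σ (ja z)) - ea F * eb F * σ (jw z) ^ 2 ≠ 0) ↔
      (jd z * (jd z - ja z) - ea K * eb K * jw z ^ 2 ≠ 0) := by
    have h : σ (jd z) * (σ (jd z) - σ (ja z)) - ea F * eb F * σ (jw z) ^ 2
        = σ (jd z * (jd z - ja z) - ea K * eb K * jw z ^ 2) := by
      simp only [map_sub, map_mul, map_pow, map_ea, map_eb]
    rw [h, ne_eq, map_eq_zero]
  have e6 : (σ (jx z) ≠ σ (jd z)) ↔ (jx z ≠ jd z) := σ.injective.ne_iff
  have e7 : ((σ (jx z) - ea F) * (σ (jx z) - eb F) ≠ 0) ↔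
      ((jx z - ea K) * (jx z - eb K) ≠ 0) := by
    have h : (σ (jx z) - ea F) * (σ (jx z) - eb F) = σ ((jx z - ea K) * (jx z - eb K)) := by
      simp only [map_sub, map_mul, map_ea, map_eb]
    rw [h, ne_eq, map_eq_zero]
  rw [e1, e2, e3, e4, e5, e6, e7]

end bch

theorem bch : BchStmt := by
  intro K F _ _ _ _ σ h2 l z z' hs
  obtain ⟨hz, hz', hl⟩ := hs
  have hzK : OnU z := (onU_bc σ z).1 hz
  cases l with
  | act a b c e =>
    obtain ⟨hdet, he⟩ := hl
    have e1 : z' = bc σ (actf a b c e z) := by rw [he]; exact actf_bc σ a b c e z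
    refine ⟨actf a b c e z, ⟨hzK, ?_, hdet, rfl⟩, e1.symm⟩
    rw [e1] at hz'
    exact (onU_bc σ _).1 hz'
  | sw =>
    have he : z' = swf (bc σ z) := hl
    have e1 : z' = bc σ (swf z) := by rw [he]; rfl
    refine ⟨swf z, ⟨hzK, ?_, rfl⟩, e1.symm⟩
    rw [e1] at hz'
    exact (onU_bc σ _).1 hz'
  | t0 =>
    have he : z' = t0f (bc σ z) := hl
    have e1 : z' = bc σ (t0f z) := by rw [he]; exact t0f_bc σ z
    refine ⟨t0f z, ⟨hzK, ?_, rfl⟩, e1.symm⟩
    rw [e1] at hz'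
    exact (onU_bc σ _).1 hz'
  | tp =>
    have he : z' = tpf (bc σ z) := hl
    have e1 : z' = bc σ (tpf z) := by rw [he]; exact tpf_bc σ z
    refine ⟨tpf z, ⟨hzK, ?_, rfl⟩, e1.symm⟩
    rw [e1] at hz'
    exact (onU_bc σ _).1 hz'
  | tm =>
    have he : z' = tmf (bc σ z) := hl
    have e1 : z' = bc σ (tmf z) := by rw [he]; exact tmf_bc σ z
    refine ⟨tmf z, ⟨hzK, ?_, rfl⟩, e1.symm⟩
    rw [e1] at hz'
    exact (onU_bc σ _).1 hz'
  | jj =>
    obtain ⟨hD, he⟩ := hl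
    have e1 : z' = bc σ (JJf z) := by
      rw [he]
      unfold JJf
      rw [show t00f (bc σ z) = bc σ (t00f z) from t00f_bc σ z,
        show jf (bc σ (t00f z)) = bc σ (jf (t00f z)) from jf_bc σ _,
        show t00f (bc σ (jf (t00f z))) = bc σ (t00f (jf (t00f z))) from
          t00f_bc σ _]
    refine ⟨JJf z, ⟨hzK, ?_, ?_, rfl⟩, e1.symm⟩
    · rw [e1] at hz'
      exact (onU_bc σ _).1 hz'
    · have hD' : jD (t00f (bc σ z)) := hD
      rw [show t00f (bc σ z) = bc σ (t00f z) from t00f_bc σ z] at hD'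
      exact (jD_bc σ _).1 hD'

theorem bck : BckStmt := by
  intro K F _ _ _ _ σ h2 k τ
  have hd : σ (cub τ) = cub (σ τ) := (cub_bc σ τ).symm
  obtain ⟨φ, h1, h2, h3⟩ := exists_bc σ (cub τ) (cub (σ τ)) hd
  have eP : φ (mkPt (cub τ) (τ * cub τ) (cub τ ^ 2))
      = mkPt (cub (σ τ)) (σ τ * cub (σ τ)) (cub (σ τ) ^ 2) := by
    rw [h2, map_mul, map_pow, hd]
  unfold ck
  rw [← h3, ← h1, eP]

end Pool.Agent.WAQ.H40
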