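import Pool.Agent.WAQ.StmtsI

/-!
# WAQ row RCJ (helper40): conjugation of the relation `RR` by an admissible word
-/

namespace Pool.Agent.WAQ.H40

open Classical

variable [Par]

theorem rcj (ruc : RucStmt) (rud : RudStmt) (rui : RuiStmt) (app : AppStmt) : RcjStmt := by
  intro ι F _ ϖ S q hF A z w z1 w1 hzw hz1 hw1
  obtain ⟨hzU, hz1U, hokA⟩ := (app (F q) A [] z z1).2 hz1
  obtain ⟨hwU, hw1U, -⟩ := (app (F q) A [] w w1).2 hw1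
  refine ⟨hz1U, hw1U, ?_⟩
  intro B hB hwB u O hO
  haveI : Gd (F q) := (hF q).gd
  obtain ⟨B', hB', hwB', hmap⟩ := ruc (F q) (Or.inl ⟨ϖ q, hF q⟩) A w w1 hw1 B hB hwB
  have key : ∀ v, ∃ (q1 : F v × F v × F v) (Q : Set (F v × F v × F v)), v ∈ S →
      (OnU q1 ∧ IsOpen Q ∧ q1 ∈ Q ∧ ∀ x ∈ Q, OnU x → ∃ y ∈ O v, Run A x y) := by
    intro v
    by_cases hv : v ∈ S
    · obtain ⟨huU, hOo, huO⟩ := hO v hv
      have hLC : IsLC (F v) := Or.inl ⟨ϖ v, hF v⟩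
      obtain ⟨q1, u1, hu1, hr⟩ := (rud (F v) hLC A hokA (O v) hOo ⟨u v, huO, huU⟩).2
      obtain ⟨Q, hQ, hq1, hm⟩ := ruc (F v) hLC A q1 u1 hr (O v) hOo hu1
      exact ⟨q1, Q, fun _ => ⟨((app (F v) A [] q1 u1).2 hr).1, hQ, hq1, hm⟩⟩
    · exact ⟨u v, O v, fun h => absurd h hv⟩
  choose q1 Q hkey using key
  obtain ⟨L, hokL, hSL, w', hw', hrunL⟩ := hzw.2.2 B' hB' hwB' q1 Q
    (fun v hv => ⟨(hkey v hv).1, (hkey v hv).2.1, (hkey v hv).2.2.1⟩)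
  have hinv : Run (invW A) z1 z := rui (F q) (hF q).two_ne A z z1 hz1
  refine ⟨invW A ++ (L ++ A), ?_, ?_, ?_⟩
  · intro l hl
    rcases List.mem_append.1 hl with h | h
    · exact ((app (F q) (invW A) [] z1 z).2 hinv).2.2 l h
    · rcases List.mem_append.1 h with h | h
      · exact hokL l h
      · exact hokA l h
  · intro v hv
    haveI : Gd (F v) := (hF v).gd
    obtain ⟨q2, hq2, q3, hq3, hr⟩ := hSL v hv
    obtain ⟨-, -, -, hm⟩ := hkey v hv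
    obtain ⟨hq2U, hq3U, -⟩ := (app (F v) L [] q2 q3).2 hr
    obtain ⟨u2, hu2, hru2⟩ := hm q2 hq2 hq2U
    obtain ⟨u3, hu3, hru3⟩ := hm q3 hq3 hq3U
    have hi : Run (invW A) u2 q2 := rui (F v) (hF v).two_ne A q2 u2 hru2
    exact ⟨u2, hu2, u3, hu3, (app (F v) (invW A) (L ++ A) u2 u3).1.2
      ⟨q2, hi, (app (F v) L A q2 u3).1.2 ⟨q3, hr, hru3⟩⟩⟩
  · obtain ⟨y, hy, hry⟩ := hmap w' hw' ((app (F q) L [] z w').2 hrunL).2.1
    exact ⟨y, hy, (app (F q) (invW A) (L ++ A) z1 y).1.2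
      ⟨z, hinv, (app (F q) L A z y).1.2 ⟨w', hrunL, hry⟩⟩⟩

end Pool.Agent.WAQ.H40
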